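import Mathlib

/-!
# The Banach space `Lip₀(M, p)` of a pointed metric space
-/

set_option autoImplicit false

open Filter Topology

namespace Pool.Agent.LipCvx

/-- The vector space of real Lipschitz functions on `M` vanishing at the base point `p`. -/
def lipSub (M : Type*) [MetricSpace M] (p : M) : Submodule ℝ (M → ℝ) where
  carrier := {f | f p = 0 ∧ ∃ K : ℝ, ∀ x y, |f x - f y| ≤ K * dist x y}
  add_mem' := by
    rintro f g ⟨hf0, K, hK⟩ ⟨hg0, L, hL⟩
    refine ⟨by simp [hf0, hg0], K + L, fun x y => ?_⟩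
    have e : (f + g) x - (f + g) y = (f x - f y) + (g x - g y) := by
      simp only [Pi.add_apply]; ring
    rw [e, add_mul]
    exact (abs_add_le _ _).trans (add_le_add (hK x y) (hL x y))
  zero_mem' := ⟨rfl, 0, fun x y => by simp⟩
  smul_mem' := by
    rintro c f ⟨hf0, K, hK⟩
    refine ⟨by simp [hf0], |c| * K, fun x y => ?_⟩
    have e : (c • f) x - (c • f) y = c * (f x - f y) := by
      simp only [Pi.smul_apply, smul_eq_mul]; ring
    rw [e, abs_mul, mul_assoc]
    exact mul_le_mul_of_nonneg_left (hK x y) (abs_nonneg c)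

/-- `Lip₀(M, p)`: the real Lipschitz functions on the metric space `M` vanishing at `p`. -/
def LipAt (M : Type*) [MetricSpace M] (p : M) : Type _ := lipSub M p

namespace LipAt

variable {M : Type*} [MetricSpace M] {p : M}

noncomputable instance : AddCommGroup (LipAt M p) := inferInstanceAs (AddCommGroup (lipSub M p))

noncomputable instance : Module ℝ (LipAt M p) := inferInstanceAs (Module ℝ (lipSub M p))

instance : CoeFun (LipAt M p) fun _ => M → ℝ := ⟨fun f => f.1⟩

@[ext] theorem ext {f g : LipAt M p} (h : ∀ x, f x = g x) : f = g := Subtype.ext (funext h)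

@[simp] theorem add_apply (f g : LipAt M p) (x : M) : (f + g) x = f x + g x := rfl
@[simp] theorem neg_apply (f : LipAt M p) (x : M) : (-f) x = -f x := rfl
@[simp] theorem zero_apply (x : M) : (0 : LipAt M p) x = 0 := rfl
@[simp] theorem smul_apply (c : ℝ) (f : LipAt M p) (x : M) : (c • f) x = c * f x := rfl

theorem map_base (f : LipAt M p) : f p = 0 := f.2.1

/-- The best Lipschitz constant. -/
noncomputable def lipConst (f : LipAt M p) : ℝ := ⨆ q : M × M, |f q.1 - f q.2| / dist q.1 q.2

theorem div_le {f : LipAt M p} {K : ℝ} (hK0 : 0 ≤ K) (hK : ∀ x y, |f x - f y| ≤ K * dist x y)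
    (q : M × M) : |f q.1 - f q.2| / dist q.1 q.2 ≤ K := by
  rcases eq_or_lt_of_le (dist_nonneg (x := q.1) (y := q.2)) with h | h
  · rw [← h, div_zero]; exact hK0
  · rw [div_le_iff₀ h]; exact hK _ _

theorem bddAbove (f : LipAt M p) :
    BddAbove (Set.range fun q : M × M => |f q.1 - f q.2| / dist q.1 q.2) := by
  obtain ⟨K, hK⟩ := f.2.2
  refine ⟨|K|, ?_⟩
  rintro _ ⟨q, rfl⟩
  exact div_le (abs_nonneg K)
    (fun x y => (hK x y).trans (mul_le_mul_of_nonneg_right (le_abs_self K) dist_nonneg)) q

theorem lipConst_nonneg (f : LipAt M p) : 0 ≤ lipConst f :=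
  Real.iSup_nonneg fun _ => by positivity

theorem abs_sub_le (f : LipAt M p) (x y : M) : |f x - f y| ≤ lipConst f * dist x y := by
  rcases eq_or_lt_of_le (dist_nonneg (x := x) (y := y)) with h | h
  · have : x = y := dist_eq_zero.1 h.symm
    subst this
    simp
  · rw [← div_le_iff₀ h]
    exact le_ciSup (bddAbove f) (x, y)

theorem lipConst_le {f : LipAt M p} {K : ℝ} (hK0 : 0 ≤ K)
    (hK : ∀ x y, |f x - f y| ≤ K * dist x y) : lipConst f ≤ K := by
  have : Nonempty (M × M) := ⟨(p, p)⟩
  exact ciSup_le (div_le hK0 hK)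

/-- The norm of `Lip₀(M, p)` is the best Lipschitz constant. -/
noncomputable def lipNorm : AddGroupNorm (LipAt M p) where
  toFun := lipConst
  map_zero' := le_antisymm (lipConst_le le_rfl fun x y => by simp) (lipConst_nonneg _)
  add_le' f g := lipConst_le (add_nonneg (lipConst_nonneg f) (lipConst_nonneg g)) fun x y => by
    have e : (f + g) x - (f + g) y = (f x - f y) + (g x - g y) := by
      simp only [add_apply]; ring
    rw [e, add_mul]
    exact (abs_add_le _ _).trans (add_le_add (abs_sub_le f x y) (abs_sub_le g x y))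
  neg' f := by
    unfold lipConst
    congr 1
    ext q
    rw [neg_apply, neg_apply, ← neg_sub', abs_neg]
  eq_zero_of_map_eq_zero' f hf := by
    ext x
    have h := abs_sub_le f x p
    have hf' : lipConst f = 0 := hf
    rw [hf', zero_mul, map_base, sub_zero] at h
    exact abs_eq_zero.1 (le_antisymm h (abs_nonneg _))

noncomputable instance : NormedAddCommGroup (LipAt M p) := lipNorm.toNormedAddCommGroup

theorem norm_def (f : LipAt M p) : ‖f‖ = ⨆ q : M × M, |f q.1 - f q.2| / dist q.1 q.2 := rfl

theorem abs_sub_le_norm (f : LipAt M p) (x y : M) : |f x - f y| ≤ ‖f‖ * dist x y :=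
  abs_sub_le f x y

theorem norm_le {f : LipAt M p} {K : ℝ} (hK0 : 0 ≤ K)
    (hK : ∀ x y, |f x - f y| ≤ K * dist x y) : ‖f‖ ≤ K := lipConst_le hK0 hK

noncomputable instance : NormedSpace ℝ (LipAt M p) where
  norm_smul_le c f := norm_le (by positivity) fun x y => by
    have e : (c • f) x - (c • f) y = c * (f x - f y) := by
      simp only [smul_apply]; ring
    rw [e, abs_mul, mul_assoc]
    exact mul_le_mul_of_nonneg_left (abs_sub_le_norm f x y) (abs_nonneg c)

end LipAt

end Pool.Agent.LipCvx
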