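import Pool.Agent.Lib.MP_327cb1_an_h24.Quot
import Pool.Agent.Lib.MP_327cb1_an_h41.Hilbert

/-!
# Convex sets `K` with a Grothendieck space `Lip₀(K)`
-/

set_option autoImplicit false

open Filter Topology NormedSpace

namespace Pool.Agent.LipCvx

open Pool.Agent.LipL1 Pool.Agent.LipSR

variable {E : Type*} [NormedAddCommGroup E] [NormedSpace ℝ E] {K : Set E}

/-- If the direction space of the convex set `K` contains arbitrarily long `θ`-separated
sequences in its unit ball then `Lip₀(K)` is not a Grothendieck space. -/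
theorem main_convex (hK : Convex ℝ K) (p : K) {θ : ℝ} (hθ : 0 < θ)
    (x : ℕ → ℕ → vectorSpan ℝ K) (hx : ∀ M n, ‖x M n‖ ≤ 1) (hsep : ∀ M, Sep θ M (x M)) :
    ¬ IsGrothendieck (LipAt K p) := by
  intro hG
  set S : Submodule ℝ (vectorSpan ℝ K) :=
    Submodule.span ℝ (Set.range fun q : ℕ × ℕ => x q.1 q.2) with hS
  have hmem : ∀ M n, x M n ∈ S := fun M n => Submodule.subset_span ⟨(M, n), rfl⟩
  have hsepS : TopologicalSpace.SeparableSpace S := by
    have h1 : TopologicalSpace.IsSeparable (S : Set (vectorSpan ℝ K)) :=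
      ((Set.countable_range fun q : ℕ × ℕ => x q.1 q.2).isSeparable).span
    exact h1.separableSpace
  let y : ℕ → ℕ → S := fun M n => ⟨x M n, hmem M n⟩
  have hy : ∀ M n, ‖y M n‖ ≤ 1 := fun M n => hx M n
  have hysep : ∀ M, Sep θ M (y M) := by
    intro M k
    obtain ⟨φ, hφ1, hφ2⟩ := hsep M k
    refine ⟨φ.comp S.subtypeL, ?_, fun i hi j hj hjM => hφ2 i hi j hj hjM⟩
    refine ContinuousLinearMap.opNorm_le_bound _ zero_le_one fun v => ?_
    have h1 := φ.le_opNorm (v : vectorSpan ℝ K)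
    have h2 := mul_le_mul_of_nonneg_right hφ1 (norm_nonneg (v : vectorSpan ℝ K))
    exact h1.trans h2
  have hnt : Nontrivial S := by
    obtain ⟨φ, -, hφ⟩ := hysep 2 0
    have h1 := hφ 0 le_rfl 1 one_pos one_lt_two
    refine ⟨⟨y 2 1, y 2 0, fun h => ?_⟩⟩
    rw [h, sub_self] at h1
    linarith
  have hfr : CrudelyFinRep S (vectorSpan ℝ K) :=
    ⟨1, fun G _ => ⟨S.subtype.comp G.subtype, fun g => ⟨le_rfl, by rw [one_mul]; exact le_rfl⟩⟩⟩
  obtain ⟨Q, L, hQ⟩ := exists_quotient_convex hK p hfr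
  exact main hθ y hy hysep (grothendieck_quotient hG Q hQ)

theorem reflexive_convex (hK : Convex ℝ K) (p : K) (hG : IsGrothendieck (LipAt K p))
    {F : Type*} [NormedAddCommGroup F] [NormedSpace ℝ F] [CompleteSpace F]
    (hF : CrudelyFinRep F (vectorSpan ℝ K)) :
    Function.Surjective (inclusionInDoubleDual ℝ F) := by
  by_contra hcon
  obtain ⟨θ, hθ, hsep⟩ := exists_sep hcon
  obtain ⟨C, hC⟩ := hF
  have hC' : 0 < max C 1 := lt_max_of_lt_right one_pos
  have h1 : ∀ M : ℕ, ∃ x' : ℕ → vectorSpan ℝ K,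
      (∀ i, ‖x' i‖ ≤ 1) ∧ Sep (θ / max C 1) M x' := by
    intro M
    obtain ⟨x, hx1, hx2⟩ := hsep M
    have hfd : FiniteDimensional ℝ (Submodule.span ℝ (x '' (Finset.range M : Set ℕ))) :=
      FiniteDimensional.span_of_finite ℝ ((Finset.range M).finite_toSet.image x)
    obtain ⟨T, hT⟩ := hC _ hfd
    refine sep_transfer hC' hx1 hx2 (Submodule.span ℝ (x '' (Finset.range M : Set ℕ)))
      (fun i hi => Submodule.subset_span ⟨i, by simpa using hi, rfl⟩)
      T fun g => ⟨(hT g).1, (hT g).2.trans ?_⟩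
    exact mul_le_mul_of_nonneg_right (le_max_left _ _) (norm_nonneg _)
  choose x' hx1 hx2 using h1
  exact main_convex hK p (div_pos hθ hC') x' hx1 hx2 hG

theorem james_convex (hK : Convex ℝ K) (p : K) (hG : IsGrothendieck (LipAt K p)) {θ : ℝ}
    (hθ : 0 < θ) :
    ∃ n : ℕ, ∀ x : Fin n → vectorSpan ℝ K, (∀ i, ‖x i‖ ≤ 1) → ¬ JamesSeparated θ x := by
  by_contra hcon
  push Not at hcon
  choose x hx1 hx2 using hcon
  refine main_convex hK p hθ (fun M i => if h : i < M then x M ⟨i, h⟩ else 0) ?_ ?_ hG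
  · intro M i
    by_cases h : i < M
    · simp only [h, dif_pos]; exact hx1 M _
    · simp only [h, dif_neg, not_false_eq_true, norm_zero]; exact zero_le_one
  · intro M k
    by_cases hk : k < M
    · obtain ⟨φ, hφ1, hφ2⟩ := exists_functional_of_hulls hθ (hx2 M ⟨k, hk⟩)
      refine ⟨φ, hφ1, fun i hi j hj hjM => ?_⟩
      have hiM : i < M := by omega
      simp only [hjM, hiM, dif_pos]
      exact hφ2 _ ⟨⟨i, hiM⟩, hi, rfl⟩ _ ⟨⟨j, hjM⟩, hj, rfl⟩
    · exact ⟨0, by simp, fun i hi j hj hjM => by omega⟩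

/-- `Lip₀(ℓ₂)` is a quotient of `Lip₀(K)` for every infinite dimensional convex set `K`. -/
theorem exists_quotient_hilb_convex (hK : Convex ℝ K) (p : K)
    (hdim : ¬ FiniteDimensional ℝ (vectorSpan ℝ K)) :
    ∃ (Q : LipAt K p →L[ℝ] Lip0 Hilb) (L : ℝ), ∀ g, ∃ f, ‖f‖ ≤ L * ‖g‖ ∧ Q f = g :=
  exists_quotient_convex hK p (finRep_of_l2 (containsL2n hdim) Hilb)

/-- Restriction to a subset of a normed space is a quotient map of `Lip₀` spaces. -/
theorem exists_restriction (M : Set E) (p : M) :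
    ∃ Q : Lip0 E →L[ℝ] LipAt M p, ∀ g : LipAt M p, ∃ f : Lip0 E, ‖f‖ ≤ 1 * ‖g‖ ∧ Q f = g := by
  let Q : Lip0 E →L[ℝ] LipAt M p := LinearMap.mkContinuous
    { toFun := fun f => ⟨fun x => f x - f p, by simp, ‖f‖, fun x y => by
        rw [Subtype.dist_eq, dist_eq_norm, sub_sub_sub_cancel_right]
        exact f.abs_sub_le_norm _ _⟩
      map_add' := fun f g => by
        ext x
        change (f + g) x - (f + g) p = (f x - f p) + (g x - g p)
        rw [Lip0.add_apply, Lip0.add_apply]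
        ring
      map_smul' := fun c f => by
        ext x
        change (c • f) x - (c • f) p = c * (f x - f p)
        rw [Lip0.smul_apply, Lip0.smul_apply]
        ring }
    1 (fun f => by
      rw [one_mul]
      refine LipAt.norm_le (norm_nonneg f) fun x y => ?_
      change |(f x - f p) - (f y - f p)| ≤ _
      rw [Subtype.dist_eq, dist_eq_norm, sub_sub_sub_cancel_right]
      exact f.abs_sub_le_norm _ _)
  refine ⟨Q, fun g => ?_⟩
  obtain ⟨F, hF1, hF2⟩ := extend_family (fun x : M => (x : E)) (fun x => g x)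
    (norm_nonneg g) (fun x y => by
      have := g.abs_sub_le_norm x y
      rwa [Subtype.dist_eq, dist_eq_norm] at this)
  let f : Lip0 E := ⟨fun x => F x - F 0, by simp, ‖g‖, fun x y => by
    rw [sub_sub_sub_cancel_right]; exact hF1 x y⟩
  refine ⟨f, ?_, ?_⟩
  · rw [one_mul]
    refine Lip0.norm_le (norm_nonneg g) fun x y => ?_
    change |(F x - F 0) - (F y - F 0)| ≤ _
    rw [sub_sub_sub_cancel_right]; exact hF1 x y
  · ext x
    change (F x - F 0) - (F p - F 0) = g x
    rw [hF2 x, hF2 p, g.map_base]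
    ring

theorem grothendieck_subset (hE : IsGrothendieck (Lip0 E)) (M : Set E) (p : M) :
    IsGrothendieck (LipAt M p) := by
  obtain ⟨Q, hQ⟩ := exists_restriction M p
  exact grothendieck_quotient hE Q hQ

end Pool.Agent.LipCvx
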