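import Pool.Agent.Lib.MP_327cb1_an_h24.Tfae

/-!
# The case `K = E`: the earlier forms of the two results as corollaries
-/

set_option autoImplicit false

open Filter Topology NormedSpace

namespace Pool.Agent.LipCvx

open Pool.Agent.LipL1 Pool.Agent.LipSR

universe u v

theorem mem_vectorSpan_univ {E : Type*} [NormedAddCommGroup E] [NormedSpace ℝ E] (v : E) :
    v ∈ vectorSpan ℝ (Set.univ : Set E) := by
  have := vsub_mem_vectorSpan ℝ (Set.mem_univ v) (Set.mem_univ (0 : E))
  rwa [vsub_eq_sub, sub_zero] at this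

/-- The earlier form of the hand-in on `ℓ₂`: the case `K = E`. -/
theorem hilbertReduction_univ :
    (∀ (E : Type u) [NormedAddCommGroup E] [NormedSpace ℝ E], ¬ FiniteDimensional ℝ E →
      LipHilbQuotient E) ∧ (QuestionOne.{u} ↔ LipHilbGrothendieck) := by
  refine ⟨fun E _ _ hE => ?_, (tfae.{u}).out 0 1⟩
  obtain ⟨Q, L, hQ⟩ := exists_quotient_hilb_convex (E := E) convex_univ ⟨0, Set.mem_univ 0⟩
    fun h => hE (finiteDimensional_of_univ h)
  obtain ⟨R, hR⟩ := exists_restriction (E := E) Set.univ ⟨0, Set.mem_univ 0⟩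
  refine ⟨Q.comp R, fun g => ?_⟩
  obtain ⟨f, -, hf⟩ := hQ g
  obtain ⟨e, -, he⟩ := hR f
  exact ⟨e, by rw [ContinuousLinearMap.comp_apply, he, hf]⟩

/-- The earlier form of the hand-in on super-reflexivity: the case `K = E`. -/
theorem superReflexive_univ (E : Type u) [NormedAddCommGroup E] [NormedSpace ℝ E]
    (hE : IsGrothendieck (Lip0 E)) :
    (∀ (F : Type v) [NormedAddCommGroup F] [NormedSpace ℝ F] [CompleteSpace F],
      CrudelyFinRep F E → Function.Surjective (NormedSpace.inclusionInDoubleDual ℝ F)) ∧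
    ∀ θ : ℝ, 0 < θ → ∃ n : ℕ, ∀ x : Fin n → E, (∀ i, ‖x i‖ ≤ 1) → ¬ JamesSeparated θ x := by
  have hG := grothendieck_subset hE Set.univ ⟨0, Set.mem_univ 0⟩
  constructor
  · intro F _ _ _ hF
    refine reflexive_convex convex_univ _ hG ?_
    obtain ⟨C, hC⟩ := hF
    refine ⟨C, fun G hGfd => ?_⟩
    obtain ⟨T, hT⟩ := hC G hGfd
    exact ⟨T.codRestrict _ fun g => mem_vectorSpan_univ (T g), hT⟩
  · intro θ hθ
    obtain ⟨n, hn⟩ := james_convex convex_univ _ hG hθ
    refine ⟨n, fun x hx hsep => hn (fun i => ⟨x i, mem_vectorSpan_univ (x i)⟩) hx ?_⟩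
    intro k a ha b hb
    have key : ∀ (s : Set (Fin n)) (c : vectorSpan ℝ (Set.univ : Set E)),
        c ∈ convexHull ℝ ((fun i => (⟨x i, mem_vectorSpan_univ (x i)⟩ :
          vectorSpan ℝ (Set.univ : Set E))) '' s) → (c : E) ∈ convexHull ℝ (x '' s) := by
      intro s c hc
      have h1 := Set.mem_image_of_mem (Submodule.subtype (vectorSpan ℝ (Set.univ : Set E))) hc
      rw [LinearMap.image_convexHull, Set.image_image] at h1
      exact h1
    exact hsep k (a : E) (key _ a ha) (b : E) (key _ b hb)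

end Pool.Agent.LipCvx
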