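import Mathlib

/-!
# Small copies inside an infinite dimensional convex set
-/

set_option autoImplicit false

open Filter Topology

namespace Pool.Agent.LipCvx

variable {E : Type*} [NormedAddCommGroup E] [NormedSpace ℝ E] {K : Set E}

theorem shrink (hK : Convex ℝ K) {a v : E} {ε δ : ℝ} (ha : a ∈ K) (hε : 0 < ε)
    (h : a + ε • v ∈ K) (hδ : 0 ≤ δ) (hδε : δ ≤ ε) : a + δ • v ∈ K := by
  have h1 := hK.add_smul_mem ha h (t := δ / ε) ⟨by positivity, by rw [div_le_one hε]; exact hδε⟩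
  rwa [smul_smul, div_mul_cancel₀ _ hε.ne'] at h1

theorem exists_dir (hK : Convex ℝ K) {p v : E} (hp : p ∈ K) (hv : v ∈ vectorSpan ℝ K) :
    ∃ a ∈ K, ∃ ε : ℝ, 0 < ε ∧ a + ε • v ∈ K := by
  rw [vectorSpan] at hv
  induction hv using Submodule.span_induction with
  | mem x hx =>
    obtain ⟨k, hk, l, hl, rfl⟩ := hx
    refine ⟨l, hl, 1, one_pos, ?_⟩
    have e : l + (1 : ℝ) • (k -ᵥ l) = k := by
      rw [one_smul, vsub_eq_sub]; abel
    simpa [e] using hk
  | zero => exact ⟨p, hp, 1, one_pos, by simpa using hp⟩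
  | add x y _ _ hx hy =>
    obtain ⟨a, ha, ε, hε, h1⟩ := hx
    obtain ⟨b, hb, δ, hδ, h2⟩ := hy
    have hm : 0 < min ε δ := lt_min hε hδ
    have h3 := shrink hK ha hε h1 hm.le (min_le_left _ _)
    have h4 := shrink hK hb hδ h2 hm.le (min_le_right _ _)
    refine ⟨(1 / 2 : ℝ) • a + (1 / 2 : ℝ) • b,
      hK ha hb (by norm_num) (by norm_num) (by norm_num), min ε δ / 2, by positivity, ?_⟩
    have h5 := hK h3 h4 (by norm_num : (0 : ℝ) ≤ 1 / 2) (by norm_num : (0 : ℝ) ≤ 1 / 2)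
      (by norm_num)
    have e : (1 / 2 : ℝ) • a + (1 / 2 : ℝ) • b + (min ε δ / 2) • (x + y) =
        (1 / 2 : ℝ) • (a + min ε δ • x) + (1 / 2 : ℝ) • (b + min ε δ • y) := by
      module
    rw [e]
    exact h5
  | smul c x _ hx =>
    obtain ⟨a, ha, ε, hε, h1⟩ := hx
    rcases le_or_gt 0 c with hc | hc
    · refine ⟨a, ha, ε / (c + 1), by positivity, ?_⟩
      have h2 := shrink hK ha hε h1 (δ := ε * c / (c + 1)) (by positivity) (by
        rw [div_le_iff₀ (by positivity)]; nlinarith)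
      have e : (ε / (c + 1)) • (c • x) = (ε * c / (c + 1)) • x := by
        rw [smul_smul]; congr 1; ring
      rw [e]
      exact h2
    · refine ⟨a + ε • x, h1, ε / (-c), div_pos hε (by linarith), ?_⟩
      have e : a + ε • x + (ε / (-c)) • (c • x) = a := by
        rw [smul_smul]
        have : ε / (-c) * c = -ε := by
          have hc' : c ≠ 0 := hc.ne
          field_simp
        rw [this, neg_smul]
        abel
      rw [e]
      exact ha

theorem exists_dirs (hK : Convex ℝ K) {p : E} (hp : p ∈ K) (s : Finset E)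
    (hs : ∀ v ∈ s, v ∈ vectorSpan ℝ K) :
    ∃ a ∈ K, ∃ ε : ℝ, 0 < ε ∧ ∀ v ∈ s, a + ε • v ∈ K := by
  classical
  induction s using Finset.induction_on with
  | empty => exact ⟨p, hp, 1, one_pos, fun v hv => absurd hv (Finset.notMem_empty v)⟩
  | insert v s _ ih =>
    obtain ⟨a, ha, ε, hε, h1⟩ := ih fun w hw => hs w (Finset.mem_insert_of_mem hw)
    obtain ⟨b, hb, δ, hδ, h2⟩ := exists_dir hK hp (hs v (Finset.mem_insert_self v s))
    have hm : 0 < min ε δ := lt_min hε hδ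
    refine ⟨(1 / 2 : ℝ) • a + (1 / 2 : ℝ) • b,
      hK ha hb (by norm_num) (by norm_num) (by norm_num), min ε δ / 2, by positivity,
      fun w hw => ?_⟩
    rcases Finset.mem_insert.1 hw with rfl | hw
    · have h4 := shrink hK hb hδ h2 hm.le (min_le_right _ _)
      have h5 := hK ha h4 (by norm_num : (0 : ℝ) ≤ 1 / 2) (by norm_num : (0 : ℝ) ≤ 1 / 2)
        (by norm_num)
      have e : (1 / 2 : ℝ) • a + (1 / 2 : ℝ) • b + (min ε δ / 2) • w =
          (1 / 2 : ℝ) • a + (1 / 2 : ℝ) • (b + min ε δ • w) := by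
        module
      rw [e]
      exact h5
    · have h4 := shrink hK ha hε (h1 w hw) hm.le (min_le_left _ _)
      have h5 := hK h4 hb (by norm_num : (0 : ℝ) ≤ 1 / 2) (by norm_num : (0 : ℝ) ≤ 1 / 2)
        (by norm_num)
      have e : (1 / 2 : ℝ) • a + (1 / 2 : ℝ) • b + (min ε δ / 2) • w =
          (1 / 2 : ℝ) • (a + min ε δ • w) + (1 / 2 : ℝ) • b := by
        module
      rw [e]
      exact h5

theorem exists_place (hK : Convex ℝ K) {p : E} (hp : p ∈ K) (s : Finset E)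
    (hs : ∀ v ∈ s, v ∈ vectorSpan ℝ K) {v₀ : E} (hv₀ : v₀ ∈ vectorSpan ℝ K) (hne : v₀ ≠ 0) :
    ∃ a ∈ K, a ≠ p ∧ ∃ ε : ℝ, 0 < ε ∧ ∀ v ∈ s, a + ε • v ∈ K := by
  classical
  obtain ⟨a, ha, ε, hε, h1⟩ := exists_dirs hK hp (insert v₀ s) (fun v hv => by
    rcases Finset.mem_insert.1 hv with rfl | hv
    · exact hv₀
    · exact hs v hv)
  by_cases hap : a = p
  · have h2 := h1 v₀ (Finset.mem_insert_self _ _)
    refine ⟨a + (ε / 2) • v₀, shrink hK ha hε h2 (by positivity) (by linarith), ?_, ε / 2,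
      by positivity, fun v hv => ?_⟩
    · rw [hap]
      intro h
      have h3 : (ε / 2) • v₀ = 0 := by
        have := congrArg (fun z => z - p) h
        simpa using this
      rcases smul_eq_zero.1 h3 with h4 | h4
      · linarith
      · exact hne h4
    · have h3 := h1 v (Finset.mem_insert_of_mem hv)
      have h5 := hK h2 h3 (by norm_num : (0 : ℝ) ≤ 1 / 2) (by norm_num : (0 : ℝ) ≤ 1 / 2)
        (by norm_num)
      have e : a + (ε / 2) • v₀ + (ε / 2) • v =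
          (1 / 2 : ℝ) • (a + ε • v₀) + (1 / 2 : ℝ) • (a + ε • v) := by
        module
      rw [e]
      exact h5
  · exact ⟨a, ha, hap, ε, hε, fun v hv => h1 v (Finset.mem_insert_of_mem hv)⟩

/-- Lacunary positive numbers below given ones. -/
theorem exists_lacunary (σ : ℕ → ℝ) (hσ : ∀ N, 0 < σ N) :
    ∃ s : ℕ → ℝ, (∀ N, 0 < s N) ∧ (∀ N, s N ≤ σ N) ∧ ∀ M N, M < N → s N ≤ s M / 4 := by
  let m : ℕ → ℝ := fun j => min 1 (σ j)
  have hm0 : ∀ j, 0 < m j := fun j => lt_min one_pos (hσ j)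
  have hm1 : ∀ j, m j ≤ 1 := fun j => min_le_left _ _
  let s : ℕ → ℝ := fun N => (1 / 4) ^ N * ∏ j ∈ Finset.range (N + 1), m j
  have hs0 : ∀ N, 0 < s N := fun N =>
    mul_pos (by positivity) (Finset.prod_pos fun j _ => hm0 j)
  have hstep : ∀ N, s (N + 1) ≤ s N / 4 := by
    intro N
    have e : s (N + 1) = s N / 4 * m (N + 1) := by
      simp only [s]
      rw [Finset.prod_range_succ _ (N + 1), pow_succ]
      ring
    rw [e]
    have := hs0 N
    nlinarith [hm1 (N + 1), hm0 (N + 1)]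
  refine ⟨s, hs0, fun N => ?_, fun M N hMN => ?_⟩
  · have h1 : ∏ j ∈ Finset.range N, m j ≤ 1 :=
      Finset.prod_le_one (fun j _ => (hm0 j).le) fun j _ => hm1 j
    have h2 : (1 / 4 : ℝ) ^ N ≤ 1 := pow_le_one₀ (by norm_num) (by norm_num)
    have h3 : 0 ≤ ∏ j ∈ Finset.range N, m j := Finset.prod_nonneg fun j _ => (hm0 j).le
    have h4 : (1 / 4 : ℝ) ^ N * ∏ j ∈ Finset.range N, m j ≤ 1 := mul_le_one₀ h2 h3 h1
    have e : s N = ((1 / 4) ^ N * ∏ j ∈ Finset.range N, m j) * m N := by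
      simp only [s]
      rw [Finset.prod_range_succ]
      ring
    rw [e]
    calc ((1 / 4 : ℝ) ^ N * ∏ j ∈ Finset.range N, m j) * m N ≤ 1 * m N :=
          mul_le_mul_of_nonneg_right h4 (hm0 N).le
      _ ≤ σ N := by rw [one_mul]; exact min_le_right _ _
  · obtain ⟨d, rfl⟩ : ∃ d, N = M + 1 + d := ⟨N - (M + 1), by omega⟩
    induction d with
    | zero => exact hstep M
    | succ d ih =>
      have h1 := ih (by omega)
      have h2 := hstep (M + 1 + d)
      have h3 := hs0 (M + 1 + d)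
      have e : M + 1 + (d + 1) = M + 1 + d + 1 := by ring
      rw [e]
      linarith

theorem exists_places (hK : Convex ℝ K) {p : E} (hp : p ∈ K) (t : ℕ → ℕ → E)
    (ht : ∀ N i, t N i ∈ vectorSpan ℝ K) {v₀ : E} (hv₀ : v₀ ∈ vectorSpan ℝ K) (hne : v₀ ≠ 0)
    (ρ : ℕ → ℝ) (hρ : ∀ N, 0 < ρ N) :
    ∃ (a : ℕ → E) (ε s : ℕ → ℝ), (∀ N, a N ∈ K) ∧ (∀ N, 0 < ε N) ∧
      (∀ N, ∀ i ≤ N, a N + ε N • t N i ∈ K) ∧ (∀ N, ‖a N - p‖ = s N) ∧ (∀ N, 0 < s N) ∧
      (∀ N, ε N * ρ N ≤ s N / 8) ∧ ∀ M N, M < N → s N ≤ s M / 4 := by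
  classical
  have h0 : ∀ N : ℕ, ∃ a ∈ K, a ≠ p ∧ ∃ ε : ℝ, 0 < ε ∧
      ∀ v ∈ (Finset.range (N + 1)).image (t N), a + ε • v ∈ K := fun N =>
    exists_place hK hp _ (fun v hv => by
      obtain ⟨i, -, rfl⟩ := Finset.mem_image.1 hv
      exact ht N i) hv₀ hne
  choose b hb hbp δ hδ hbδ using h0
  have hσ : ∀ N, 0 < ‖b N - p‖ := fun N => norm_pos_iff.2 (sub_ne_zero.2 (hbp N))
  obtain ⟨s, hs0, hs1, hs2⟩ := exists_lacunary (fun N => ‖b N - p‖) hσ
  let τ : ℕ → ℝ := fun N => s N / ‖b N - p‖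
  have hτ0 : ∀ N, 0 < τ N := fun N => div_pos (hs0 N) (hσ N)
  have hτ1 : ∀ N, τ N ≤ 1 := fun N => (div_le_one (hσ N)).2 (hs1 N)
  let ε : ℕ → ℝ := fun N => min (τ N * δ N) (s N / (8 * ρ N))
  have hε0 : ∀ N, 0 < ε N := fun N => lt_min (mul_pos (hτ0 N) (hδ N))
    (div_pos (hs0 N) (mul_pos (by norm_num) (hρ N)))
  refine ⟨fun N => p + τ N • (b N - p), ε, s, fun N => ?_, hε0, fun N i hi => ?_, fun N => ?_,
    hs0, fun N => ?_, hs2⟩
  · exact hK.add_smul_sub_mem hp (hb N) ⟨(hτ0 N).le, hτ1 N⟩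
  · have h1 := hbδ N (t N i) (Finset.mem_image_of_mem _ (Finset.mem_range.2 (by omega)))
    have h2 : ε N / τ N ≤ δ N := by
      rw [div_le_iff₀ (hτ0 N), mul_comm]
      exact min_le_left _ _
    have h3 := shrink hK (hb N) (hδ N) h1 (δ := ε N / τ N) (div_pos (hε0 N) (hτ0 N)).le h2
    have h4 := hK.add_smul_sub_mem hp h3 (t := τ N) ⟨(hτ0 N).le, hτ1 N⟩
    have e : p + τ N • (b N + (ε N / τ N) • t N i - p) =
        p + τ N • (b N - p) + ε N • t N i := by
      have e1 : b N + (ε N / τ N) • t N i - p = (b N - p) + (ε N / τ N) • t N i := by abel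
      rw [e1, smul_add, smul_smul, mul_div_cancel₀ _ (hτ0 N).ne', add_assoc]
    rw [e] at h4
    exact h4
  · have e : p + τ N • (b N - p) - p = τ N • (b N - p) := by abel
    rw [e, norm_smul, Real.norm_eq_abs, abs_of_pos (hτ0 N)]
    exact div_mul_cancel₀ _ (hσ N).ne'
  · have h1 : ε N ≤ s N / (8 * ρ N) := min_le_right _ _
    have h2 := mul_le_mul_of_nonneg_right h1 (hρ N).le
    refine h2.trans (le_of_eq ?_)
    have := (hρ N).ne'
    field_simp

end Pool.Agent.LipCvx
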