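import Pool.Agent.Lib.MP_327cb1_an_h24.LipAt
import Pool.Agent.Lib.MP_327cb1_an_h24.Places
import Pool.Agent.Lib.MP_327cb1_an_h41.Reduction

/-!
# `Lip₀(F)` is a quotient of `Lip₀(K)` for convex `K`
-/

set_option autoImplicit false

open Filter Topology

namespace Pool.Agent.LipCvx

open Pool.Agent.LipL1 Pool.Agent.LipSR

variable {E : Type*} [NormedAddCommGroup E] [NormedSpace ℝ E] {K : Set E}
variable {F : Type*} [NormedAddCommGroup F] [NormedSpace ℝ F]

omit [NormedSpace ℝ F] in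
/-- Lift of a Lipschitz function on `F` to `E` along small copies of finite subsets. -/
theorem exists_lift {p : E} (a : ℕ → E) (ε s : ℕ → ℝ) (d : ℕ → F) (t : ℕ → ℕ → E) {C : ℝ}
    (hC : 1 ≤ C) (ht1 : ∀ N, ∀ i ≤ N, ‖t N i‖ ≤ ‖d i‖)
    (ht2 : ∀ N, ∀ i ≤ N, ∀ j ≤ N, ‖d i - d j‖ ≤ C * ‖t N i - t N j‖)
    (hε : ∀ N, 0 < ε N) (has : ∀ N, ‖a N - p‖ = s N) (hs0 : ∀ N, 0 < s N)
    (hεs : ∀ N, ε N * rad d N ≤ s N / 8) (hss : ∀ M N, M < N → s N ≤ s M / 4) (g : Lip0 F) :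
    ∃ f : E → ℝ, (∀ x y, |f x - f y| ≤ C * ‖g‖ * ‖x - y‖) ∧ f p = 0 ∧
      ∀ N, ∀ i ≤ N, f (a N + ε N • t N i) = ε N * g (d i) := by
  have hg0 := norm_nonneg g
  have hCg : ‖g‖ ≤ C * ‖g‖ := by nlinarith
  have hval : ∀ N i : ℕ, i ≤ N → |ε N * g (d i)| ≤ ‖g‖ * (s N / 8) := by
    intro N i hi
    rw [abs_mul, abs_of_pos (hε N)]
    have h1 := g.abs_apply_le (d i)
    have h2 := le_rad d hi
    have h3 : ‖g‖ * ‖d i‖ ≤ ‖g‖ * rad d N := mul_le_mul_of_nonneg_left h2 hg0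
    have h4 : ε N * |g (d i)| ≤ ε N * (‖g‖ * rad d N) :=
      mul_le_mul_of_nonneg_left (h1.trans h3) (hε N).le
    have h5 := mul_le_mul_of_nonneg_left (hεs N) hg0
    calc ε N * |g (d i)| ≤ ε N * (‖g‖ * rad d N) := h4
      _ = ‖g‖ * (ε N * rad d N) := by ring
      _ ≤ _ := h5
  have hsm : ∀ N i : ℕ, i ≤ N → ‖ε N • t N i‖ ≤ s N / 8 := by
    intro N i hi
    rw [norm_smul, Real.norm_eq_abs, abs_of_pos (hε N)]
    exact (mul_le_mul_of_nonneg_left ((ht1 N i hi).trans (le_rad d hi)) (hε N).le).trans (hεs N)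
  have hcase : ∀ M N i j : ℕ, M < N → i ≤ M → j ≤ N →
      |ε M * g (d i) - ε N * g (d j)| ≤
        C * ‖g‖ * ‖(a M + ε M • t M i) - (a N + ε N • t N j)‖ := by
    intro M N i j hMN hi hj
    have h1 := hval M i hi
    have h2 := hval N j hj
    have h3 := hsm M i hi
    have h4 := hsm N j hj
    have h5 := hss M N hMN
    have h6 := hs0 M
    have h7 := hs0 N
    have h8 : s M ≤ ‖(a M + ε M • t M i) - (a N + ε N • t N j)‖ + s N + s M / 8 + s N / 8 := by
      have e : a M - p = ((a M + ε M • t M i) - (a N + ε N • t N j)) + (a N - p) -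
          ε M • t M i + ε N • t N j := by abel
      calc s M = ‖a M - p‖ := (has M).symm
        _ = ‖((a M + ε M • t M i) - (a N + ε N • t N j)) + (a N - p) -
          ε M • t M i + ε N • t N j‖ := by rw [← e]
        _ ≤ ‖((a M + ε M • t M i) - (a N + ε N • t N j)) + (a N - p) - ε M • t M i‖ +
            ‖ε N • t N j‖ := norm_add_le _ _
        _ ≤ ‖((a M + ε M • t M i) - (a N + ε N • t N j)) + (a N - p)‖ + ‖ε M • t M i‖ +
            ‖ε N • t N j‖ := by gcongr; exact norm_sub_le _ _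
        _ ≤ ‖(a M + ε M • t M i) - (a N + ε N • t N j)‖ + ‖a N - p‖ + ‖ε M • t M i‖ +
            ‖ε N • t N j‖ := by gcongr; exact norm_add_le _ _
        _ ≤ _ := by rw [has N]; linarith
    have h9 : s M / 8 + s N / 8 ≤ ‖(a M + ε M • t M i) - (a N + ε N • t N j)‖ := by linarith
    calc |ε M * g (d i) - ε N * g (d j)| ≤ |ε M * g (d i)| + |ε N * g (d j)| := abs_sub _ _
      _ ≤ ‖g‖ * (s M / 8) + ‖g‖ * (s N / 8) := add_le_add h1 h2
      _ = ‖g‖ * (s M / 8 + s N / 8) := by ring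
      _ ≤ ‖g‖ * ‖(a M + ε M • t M i) - (a N + ε N • t N j)‖ :=
          mul_le_mul_of_nonneg_left h9 hg0
      _ ≤ _ := mul_le_mul_of_nonneg_right hCg (norm_nonneg _)
  have hzero : ∀ N i : ℕ, i ≤ N → |ε N * g (d i)| ≤ C * ‖g‖ * ‖(a N + ε N • t N i) - p‖ := by
    intro N i hi
    have h1 := hval N i hi
    have h3 := hsm N i hi
    have h6 := hs0 N
    have h4 : s N ≤ ‖(a N + ε N • t N i) - p‖ + ‖ε N • t N i‖ := by
      have e : a N - p = ((a N + ε N • t N i) - p) - ε N • t N i := by abel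
      calc s N = ‖a N - p‖ := (has N).symm
        _ = ‖((a N + ε N • t N i) - p) - ε N • t N i‖ := by rw [← e]
        _ ≤ _ := norm_sub_le _ _
    have h7 : s N / 8 ≤ ‖(a N + ε N • t N i) - p‖ := by linarith
    calc |ε N * g (d i)| ≤ ‖g‖ * (s N / 8) := h1
      _ ≤ ‖g‖ * ‖(a N + ε N • t N i) - p‖ := mul_le_mul_of_nonneg_left h7 hg0
      _ ≤ _ := mul_le_mul_of_nonneg_right hCg (norm_nonneg _)
  let I := Option {q : ℕ × ℕ // q.2 ≤ q.1}
  let P : I → E := fun o => match o with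
    | none => p
    | some q => a q.1.1 + ε q.1.1 • t q.1.1 q.1.2
  let v : I → ℝ := fun o => match o with
    | none => 0
    | some q => ε q.1.1 * g (d q.1.2)
  have hK0 : 0 ≤ C * ‖g‖ := by positivity
  obtain ⟨f, hf1, hf2⟩ := extend_family P v (K := C * ‖g‖) hK0 (by
    intro x y
    match x, y with
    | none, none => simp [v]
    | none, some q =>
      simp only [v, P, zero_sub, abs_neg]
      rw [norm_sub_rev]
      exact hzero _ _ q.2
    | some q, none =>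
      simp only [v, P, sub_zero]
      exact hzero _ _ q.2
    | some q, some q' =>
      simp only [v, P]
      rcases lt_trichotomy q.1.1 q'.1.1 with h | h | h
      · exact hcase _ _ _ _ h q.2 q'.2
      · rw [h, add_sub_add_left_eq_sub, ← smul_sub, ← mul_sub, abs_mul, norm_smul,
          Real.norm_eq_abs]
        have h1 := ht2 q'.1.1 q.1.2 (h ▸ q.2) q'.1.2 q'.2
        have h2 : |g (d q.1.2) - g (d q'.1.2)| ≤
            ‖g‖ * (C * ‖t q'.1.1 q.1.2 - t q'.1.1 q'.1.2‖) :=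
          (g.abs_sub_le_norm _ _).trans (mul_le_mul_of_nonneg_left h1 hg0)
        have h3 := mul_le_mul_of_nonneg_left h2 (abs_nonneg (ε q'.1.1))
        refine h3.trans (le_of_eq ?_)
        ring
      · rw [abs_sub_comm, norm_sub_rev]
        exact hcase _ _ _ _ h q'.2 q.2)
  exact ⟨f, hf1, hf2 none, fun N i hi => hf2 (some ⟨(N, i), hi⟩)⟩

/-- For convex `K` and separable `F` crudely finitely representable in the direction space of
`K`, `Lip₀(F)` is a quotient of `Lip₀(K)`. -/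
theorem exists_quotient_convex [TopologicalSpace.SeparableSpace F] [Nontrivial F]
    (hK : Convex ℝ K) (p : K) (hF : CrudelyFinRep F (vectorSpan ℝ K)) :
    ∃ (Q : LipAt K p →L[ℝ] Lip0 F) (L : ℝ), ∀ g : Lip0 F, ∃ f : LipAt K p,
      ‖f‖ ≤ L * ‖g‖ ∧ Q f = g := by
  classical
  obtain ⟨C₀, hC₀⟩ := hF
  set C := max C₀ 1 with hCdef
  have hC1 : 1 ≤ C := le_max_right _ _
  have hC : ∀ G : Submodule ℝ F, FiniteDimensional ℝ G →
      ∃ T : G →ₗ[ℝ] vectorSpan ℝ K, ∀ g : G, ‖T g‖ ≤ ‖g‖ ∧ ‖g‖ ≤ C * ‖T g‖ := by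
    intro G hG
    obtain ⟨T, hT⟩ := hC₀ G hG
    exact ⟨T, fun g => ⟨(hT g).1, (hT g).2.trans
      (mul_le_mul_of_nonneg_right (le_max_left _ _) (norm_nonneg _))⟩⟩
  -- a nonzero direction
  obtain ⟨v₀, hv₀, hne⟩ : ∃ v₀ ∈ vectorSpan ℝ K, v₀ ≠ 0 := by
    obtain ⟨v, hv⟩ := exists_ne (0 : F)
    obtain ⟨T, hT⟩ := hC (Submodule.span ℝ {v}) (FiniteDimensional.span_singleton ℝ v)
    have h1 := (hT ⟨v, Submodule.mem_span_singleton_self v⟩).2
    refine ⟨T ⟨v, Submodule.mem_span_singleton_self v⟩, Subtype.property _, ?_⟩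
    intro h
    have h2 : ‖T ⟨v, Submodule.mem_span_singleton_self v⟩‖ = 0 := by
      have h4 : ‖((T ⟨v, Submodule.mem_span_singleton_self v⟩ : vectorSpan ℝ K) : E)‖ = 0 := by
        rw [h, norm_zero]
      exact h4
    rw [h2, mul_zero] at h1
    have h3 : ‖v‖ ≤ 0 := h1
    exact hv (norm_le_zero_iff.1 h3)
  -- the dense sequence, starting with zero
  obtain ⟨d₀, hd₀⟩ := TopologicalSpace.exists_dense_seq F
  let d : ℕ → F := fun i => match i with
    | 0 => 0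
    | i + 1 => d₀ i
  have hd0 : d 0 = 0 := rfl
  have hds : ∀ i, d (i + 1) = d₀ i := fun i => rfl
  -- the copies
  have hcop : ∀ N : ℕ, ∃ T : Submodule.span ℝ (d '' (Finset.range (N + 1) : Set ℕ)) →ₗ[ℝ]
      vectorSpan ℝ K, ∀ g, ‖T g‖ ≤ ‖g‖ ∧ ‖g‖ ≤ C * ‖T g‖ := fun N =>
    hC _ (FiniteDimensional.span_of_finite ℝ ((Finset.range (N + 1)).finite_toSet.image d))
  choose T hT using hcop
  have hmem : ∀ N i, i ≤ N → d i ∈ Submodule.span ℝ (d '' (Finset.range (N + 1) : Set ℕ)) :=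
    fun N i hi => Submodule.subset_span ⟨i, by simpa using Nat.lt_succ_of_le hi, rfl⟩
  let t : ℕ → ℕ → E := fun N i => if h : i ≤ N then ((T N ⟨d i, hmem N i h⟩ : vectorSpan ℝ K) : E)
    else 0
  have ht : ∀ N i (h : i ≤ N), t N i = ((T N ⟨d i, hmem N i h⟩ : vectorSpan ℝ K) : E) :=
    fun N i h => dif_pos h
  have htm : ∀ N i, t N i ∈ vectorSpan ℝ K := by
    intro N i
    by_cases h : i ≤ N
    · rw [ht N i h]; exact Subtype.property _
    · have : t N i = 0 := dif_neg h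
      rw [this]; exact Submodule.zero_mem _
  have ht1 : ∀ N, ∀ i ≤ N, ‖t N i‖ ≤ ‖d i‖ := fun N i hi => by
    rw [ht N i hi]; exact (hT N _).1
  have hsub : ∀ N i (hi : i ≤ N) j (hj : j ≤ N), t N i - t N j =
      ((T N (⟨d i, hmem N i hi⟩ - ⟨d j, hmem N j hj⟩) : vectorSpan ℝ K) : E) := by
    intro N i hi j hj
    rw [ht N i hi, ht N j hj, ← Submodule.coe_sub, ← map_sub]
  have ht2 : ∀ N, ∀ i ≤ N, ∀ j ≤ N, ‖d i - d j‖ ≤ C * ‖t N i - t N j‖ := by
    intro N i hi j hj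
    rw [hsub N i hi j hj]
    exact (hT N (⟨d i, hmem N i hi⟩ - ⟨d j, hmem N j hj⟩)).2
  have ht3 : ∀ N, ∀ i ≤ N, ∀ j ≤ N, ‖t N i - t N j‖ ≤ ‖d i - d j‖ := by
    intro N i hi j hj
    rw [hsub N i hi j hj]
    exact (hT N (⟨d i, hmem N i hi⟩ - ⟨d j, hmem N j hj⟩)).1
  have ht0 : ∀ N, t N 0 = 0 := fun N => by
    have := ht1 N 0 (Nat.zero_le N)
    rw [hd0, norm_zero] at this
    exact norm_le_zero_iff.1 this
  obtain ⟨a, ε, s, haK, hε, hplace, has, hs0, hεs, hss⟩ :=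
    exists_places hK p.2 t htm hv₀ hne (rad d) (rad_pos d)
  -- nearest points
  have hnear : ∀ (x : F) (N : ℕ), ∃ i, i ≤ N ∧ ∀ j ≤ N, ‖x - d i‖ ≤ ‖x - d j‖ := by
    intro x N
    obtain ⟨i, hi1, hi2⟩ := Finset.exists_min_image (Finset.range (N + 1)) (fun j => ‖x - d j‖)
      ⟨0, by simp⟩
    exact ⟨i, Nat.lt_succ_iff.1 (Finset.mem_range.1 hi1), fun j hj =>
      hi2 j (Finset.mem_range.2 (Nat.lt_succ_of_le hj))⟩
  choose ix hix1 hix2 using hnear
  have hlim : ∀ x : F, Tendsto (fun N => d (ix x N)) atTop (𝓝 x) := by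
    intro x
    rw [Metric.tendsto_atTop]
    intro ε hε
    obtain ⟨j, hj⟩ := hd₀.exists_dist_lt x hε
    refine ⟨j + 1, fun N hN => ?_⟩
    rw [dist_eq_norm, norm_sub_rev]
    refine (hix2 x N (j + 1) hN).trans_lt ?_
    rw [hds, ← dist_eq_norm]
    exact hj
  -- the points of the copies
  let pt : ℕ → ℕ → K := fun N i => if h : i ≤ N then ⟨a N + ε N • t N i, hplace N i h⟩ else p
  have hpt : ∀ N i (h : i ≤ N), pt N i = ⟨a N + ε N • t N i, hplace N i h⟩ :=
    fun N i h => dif_pos h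
  have hptd : ∀ N, ∀ i ≤ N, ∀ j ≤ N, dist (pt N i) (pt N j) ≤ ε N * ‖d i - d j‖ := by
    intro N i hi j hj
    rw [hpt N i hi, hpt N j hj, Subtype.dist_eq, dist_eq_norm, add_sub_add_left_eq_sub,
      ← smul_sub, norm_smul, Real.norm_eq_abs, abs_of_pos (hε N)]
    exact mul_le_mul_of_nonneg_left (ht3 N i hi j hj) (hε N).le
  -- the operator
  let A : LipAt K p → F → ℕ → ℝ := fun f x N => (f (pt N (ix x N)) - f (pt N 0)) / ε N
  have hquot : ∀ (f : LipAt K p) (N i j : ℕ), i ≤ N → j ≤ N →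
      |(f (pt N i) - f (pt N j)) / ε N| ≤ ‖f‖ * ‖d i - d j‖ := by
    intro f N i j hi hj
    rw [abs_div, abs_of_pos (hε N), div_le_iff₀ (hε N)]
    refine (f.abs_sub_le_norm _ _).trans ?_
    refine (mul_le_mul_of_nonneg_left (hptd N i hi j hj) (norm_nonneg f)).trans (le_of_eq ?_)
    ring
  have hAsub : ∀ f x y N, |A f x N - A f y N| ≤ ‖f‖ * ‖d (ix x N) - d (ix y N)‖ := by
    intro f x y N
    have e : A f x N - A f y N = (f (pt N (ix x N)) - f (pt N (ix y N))) / ε N := by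
      simp only [A]
      ring
    rw [e]
    exact hquot f N _ _ (hix1 x N) (hix1 y N)
  have hAle : ∀ f x N, |A f x N| ≤ ‖f‖ * ‖d (ix x N)‖ := by
    intro f x N
    have h1 := hquot f N (ix x N) 0 (hix1 x N) (Nat.zero_le N)
    rw [hd0, sub_zero] at h1
    exact h1
  have hix2' : ∀ (x : F) (N : ℕ), ‖d (ix x N)‖ ≤ 2 * ‖x‖ := by
    intro x N
    have h1 := hix2 x N 0 (Nat.zero_le N)
    rw [hd0, sub_zero] at h1
    have h2 : ‖d (ix x N)‖ ≤ ‖x‖ + ‖x - d (ix x N)‖ := by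
      have e : d (ix x N) = x - (x - d (ix x N)) := by abel
      calc ‖d (ix x N)‖ = ‖x - (x - d (ix x N))‖ := by rw [← e]
        _ ≤ _ := norm_sub_le _ _
    linarith
  have hAbd : ∀ f x N, |A f x N| ≤ ‖f‖ * (2 * ‖x‖) := fun f x N =>
    (hAle f x N).trans (mul_le_mul_of_nonneg_left (hix2' x N) (norm_nonneg f))
  have hAt : ∀ f x, Tendsto (fun N => A f x N) (hyperfilter ℕ : Filter ℕ)
      (𝓝 (ul fun N => A f x N)) := fun f x => ul_tend fun N => hAbd f x N
  have hlip : ∀ f x y, |ul (fun N => A f x N) - ul (fun N => A f y N)| ≤ ‖f‖ * ‖x - y‖ := by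
    intro f x y
    have h1 := ((hAt f x).sub (hAt f y)).abs
    have h2 : Tendsto (fun N => ‖f‖ * ‖d (ix x N) - d (ix y N)‖) (hyperfilter ℕ : Filter ℕ)
        (𝓝 (‖f‖ * ‖x - y‖)) :=
      (((hlim x).sub (hlim y)).norm.const_mul ‖f‖).mono_left Nat.hyperfilter_le_atTop
    exact le_of_tendsto_of_tendsto' h1 h2 fun N => hAsub f x y N
  have hzero : ∀ f, ul (fun N => A f 0 N) = 0 := by
    intro f
    apply ul_eq
    have h2 : Tendsto (fun N => ‖f‖ * ‖d (ix 0 N)‖) (hyperfilter ℕ : Filter ℕ) (𝓝 0) := by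
      have h3 := ((hlim 0).norm.const_mul ‖f‖).mono_left Nat.hyperfilter_le_atTop
      rwa [norm_zero, mul_zero] at h3
    exact squeeze_zero_norm (fun N => by rw [Real.norm_eq_abs]; exact hAle f 0 N) h2
  let Q₀ : LipAt K p → Lip0 F := fun f =>
    ⟨fun x => ul fun N => A f x N, hzero f, ‖f‖, fun x y => hlip f x y⟩
  have hQ₀ : ∀ f x, Q₀ f x = ul fun N => A f x N := fun f x => rfl
  let Q : LipAt K p →L[ℝ] Lip0 F := LinearMap.mkContinuous
    { toFun := Q₀
      map_add' := fun f g => by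
        ext x
        rw [Lip0.add_apply, hQ₀, hQ₀, hQ₀, ← ul_add (fun N => hAbd f x N) (fun N => hAbd g x N)]
        congr 1
        funext N
        simp only [A, LipAt.add_apply]
        ring
      map_smul' := fun c f => by
        ext x
        rw [RingHom.id_apply, Lip0.smul_apply, hQ₀, hQ₀, ← ul_mul c (fun N => hAbd f x N)]
        congr 1
        funext N
        simp only [A, LipAt.smul_apply]
        ring }
    1 (fun f => by
      rw [one_mul]
      exact Lip0.norm_le (norm_nonneg f) fun x y => hlip f x y)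
  refine ⟨Q, C, fun g => ?_⟩
  obtain ⟨f, hf1, hfp, hf2⟩ := exists_lift a ε s d t hC1 ht1 ht2 hε has hs0 hεs hss g
  have hCg : 0 ≤ C * ‖g‖ := mul_nonneg (by linarith) (norm_nonneg g)
  let f' : LipAt K p := ⟨fun x => f x, hfp, C * ‖g‖, fun x y => by
    rw [Subtype.dist_eq, dist_eq_norm]; exact hf1 x y⟩
  have hf' : ∀ x : K, f' x = f x := fun x => rfl
  refine ⟨f', LipAt.norm_le hCg fun x y => by
    rw [Subtype.dist_eq, dist_eq_norm]; exact hf1 x y, ?_⟩
  ext x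
  have e : Q f' x = ul fun N => A f' x N := rfl
  rw [e]
  apply ul_eq
  have h1 : ∀ N, A f' x N = g (d (ix x N)) := by
    intro N
    have h2 := hf2 N (ix x N) (hix1 x N)
    have h3 := hf2 N 0 (Nat.zero_le N)
    rw [hd0, Lip0.map_zero, mul_zero] at h3
    simp only [A]
    rw [hpt N _ (hix1 x N), hpt N 0 (Nat.zero_le N), hf', hf', h2, h3, sub_zero,
      mul_div_cancel_left₀ _ (hε N).ne']
  have hcont : Continuous (fun x => g x) := by
    have hlipg : LipschitzWith ‖g‖₊ (fun x => g x) := by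
      apply LipschitzWith.of_dist_le_mul
      intro a b
      rw [Real.dist_eq, dist_eq_norm]
      exact g.abs_sub_le_norm a b
    exact hlipg.continuous
  have h2 : Tendsto (fun N => g (d (ix x N))) (hyperfilter ℕ : Filter ℕ) (𝓝 (g x)) :=
    ((hcont.tendsto x).comp (hlim x)).mono_left Nat.hyperfilter_le_atTop
  exact h2.congr fun N => (h1 N).symm

end Pool.Agent.LipCvx
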