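import Pool.Agent.Lib.MP_327cb1_an_h24.Main

/-!
# The question and its compact forms
-/

set_option autoImplicit false

open Filter Topology

namespace Pool.Agent.LipCvx

open Pool.Agent.LipL1 Pool.Agent.LipSR

universe u

/-- `Lip₀(K, p)` is a Grothendieck space for some infinite dimensional convex subset `K` of some
real normed space and some base point `p`. -/
def SomeConvex : Prop := ∃ (E : Type u) (_ : NormedAddCommGroup E) (_ : NormedSpace ℝ E)
  (K : Set E) (p : K), Convex ℝ K ∧ ¬ FiniteDimensional ℝ (vectorSpan ℝ K) ∧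
    IsGrothendieck (LipAt K p)

/-- `Lip₀(K, p)` is a Grothendieck space for some infinite dimensional compact convex subset `K`
of `ℓ₂` and some base point `p`. -/
def SomeCompactConvex : Prop := ∃ (K : Set Hilb) (p : K), IsCompact K ∧ Convex ℝ K ∧
  ¬ FiniteDimensional ℝ (vectorSpan ℝ K) ∧ IsGrothendieck (LipAt K p)

/-- `Lip₀(M, p)` is a Grothendieck space for all subsets `M` of `ℓ₂` and all base points `p`. -/
def AllSubsets : Prop := ∀ (M : Set Hilb) (p : M), IsGrothendieck (LipAt M p)

theorem finiteDimensional_of_univ {E : Type*} [NormedAddCommGroup E] [NormedSpace ℝ E]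
    (h : FiniteDimensional ℝ (vectorSpan ℝ (Set.univ : Set E))) : FiniteDimensional ℝ E := by
  have htop : vectorSpan ℝ (Set.univ : Set E) = ⊤ := by
    rw [eq_top_iff]
    intro v _
    have := vsub_mem_vectorSpan ℝ (Set.mem_univ v) (Set.mem_univ (0 : E))
    rwa [vsub_eq_sub, sub_zero] at this
  rw [htop] at h
  exact LinearEquiv.finiteDimensional (Submodule.topEquiv (R := ℝ) (M := E))

/-- An infinite dimensional compact convex subset of `ℓ₂`. -/
theorem exists_compact_convex : ∃ (K : Set Hilb), K.Nonempty ∧ IsCompact K ∧ Convex ℝ K ∧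
    ¬ FiniteDimensional ℝ (vectorSpan ℝ K) := by
  have b : HilbertBasis ℕ ℝ Hilb := default
  let c : ℕ → Hilb := fun n => ((n : ℝ) + 1)⁻¹ • b n
  have hc : Tendsto c atTop (𝓝 0) := by
    have h1 : Tendsto (fun n : ℕ => 1 / ((n : ℝ) + 1)) atTop (𝓝 0) :=
      tendsto_one_div_add_atTop_nhds_zero_nat
    refine squeeze_zero_norm (fun n => ?_) h1
    have h2 : (0 : ℝ) < (n : ℝ) + 1 := by positivity
    rw [norm_smul, b.orthonormal.1 n, mul_one, norm_inv, Real.norm_eq_abs, abs_of_pos h2,
      one_div]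
  let S : Set Hilb := insert 0 (Set.range c)
  have hS : IsCompact S := hc.isCompact_insert_range
  have hsub : S ⊆ closure (convexHull ℝ S) := (subset_convexHull ℝ S).trans subset_closure
  have h0 : (0 : Hilb) ∈ closure (convexHull ℝ S) := hsub (Set.mem_insert _ _)
  refine ⟨closure (convexHull ℝ S), ⟨0, h0⟩, ?_, (convex_convexHull ℝ S).closure, ?_⟩
  · exact isCompact_iff_totallyBounded_isComplete.2
      ⟨hS.totallyBounded.convexHull.closure, isClosed_closure.isComplete⟩
  · intro hfin
    have hmem : ∀ n, b n ∈ vectorSpan ℝ (closure (convexHull ℝ S)) := by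
      intro n
      have h1 : c n ∈ closure (convexHull ℝ S) := hsub (Set.mem_insert_of_mem _ ⟨n, rfl⟩)
      have h2 := vsub_mem_vectorSpan ℝ h1 h0
      rw [vsub_eq_sub, sub_zero] at h2
      have h3 := Submodule.smul_mem _ ((n : ℝ) + 1) h2
      have h4 : ((n : ℝ) + 1) • c n = b n := by
        have h5 : ((n : ℝ) + 1) ≠ 0 := by positivity
        simp only [c]
        rw [smul_smul, mul_inv_cancel₀ h5, one_smul]
      rwa [h4] at h3
    have hli : LinearIndependent ℝ
        (fun n => (⟨b n, hmem n⟩ : vectorSpan ℝ (closure (convexHull ℝ S)))) :=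
      LinearIndependent.of_comp (Submodule.subtype _) b.orthonormal.linearIndependent
    have h2 : Finite ℕ := hli.finite
    exact not_finite ℕ

theorem questionOne_of_hilb (hG : LipHilbGrothendieck) : QuestionOne.{u} := by
  refine ⟨ULift.{u} Hilb, inferInstance, inferInstance, inferInstance, ?_, ?_⟩
  · intro h
    exact not_finiteDimensional_hilb
      (LinearEquiv.finiteDimensional (ULift.moduleEquiv (R := ℝ) (M := Hilb)))
  · have : TopologicalSpace.SeparableSpace (ULift.{u} Hilb) :=
      (LinearIsometryEquiv.symm (LinearIsometryEquiv.ulift ℝ Hilb)).toHomeomorph.surjective.denseRange.separableSpace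
        (LinearIsometryEquiv.symm (LinearIsometryEquiv.ulift ℝ Hilb)).continuous
    apply grothendieck_of_finRep hG
    refine ⟨1, fun G _ =>
      ⟨(LinearIsometryEquiv.ulift ℝ Hilb).toLinearEquiv.toLinearMap.comp G.subtype, fun g => ?_⟩⟩
    have h1 : ‖(LinearIsometryEquiv.ulift ℝ Hilb).toLinearEquiv.toLinearMap.comp G.subtype g‖ =
        ‖g‖ := (LinearIsometryEquiv.ulift ℝ Hilb).norm_map (g : ULift.{u} Hilb)
    rw [h1, one_mul]
    exact ⟨le_rfl, le_rfl⟩

theorem tfae : List.TFAE [QuestionOne.{u}, LipHilbGrothendieck, SomeConvex.{u},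
    SomeCompactConvex, AllSubsets] := by
  tfae_have 1 → 3 := by
    rintro ⟨E, i1, i2, -, hE, hG⟩
    exact ⟨E, i1, i2, Set.univ, ⟨0, Set.mem_univ 0⟩, convex_univ,
      fun h => hE (finiteDimensional_of_univ h), grothendieck_subset hG _ _⟩
  tfae_have 3 → 2 := by
    rintro ⟨E, i1, i2, K, p, hK, hd, hG⟩
    obtain ⟨Q, L, hQ⟩ := exists_quotient_hilb_convex hK p hd
    exact grothendieck_quotient hG Q hQ
  tfae_have 2 → 5 := fun hG M p => grothendieck_subset hG M p
  tfae_have 5 → 4 := by
    intro h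
    obtain ⟨K, ⟨p, hp⟩, h1, h2, h3⟩ := exists_compact_convex
    exact ⟨K, ⟨p, hp⟩, h1, h2, h3, h K ⟨p, hp⟩⟩
  tfae_have 4 → 2 := by
    rintro ⟨K, p, -, hK, hd, hG⟩
    obtain ⟨Q, L, hQ⟩ := exists_quotient_hilb_convex hK p hd
    exact grothendieck_quotient hG Q hQ
  tfae_have 2 → 1 := questionOne_of_hilb
  tfae_finish

end Pool.Agent.LipCvx
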